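import Mathlib
import Pool.Agent.Q20.QD.D

/-!
# Every quaternion extension of `ℚ` lies in the compositum of the dihedral octic extensions

Let `K` be a `Q_8`-extension, `t ∈ K` with `z t = -t` for the central involution `z`, and `x = (t, i t, j t, k t)`.
The matrix of the rotation defined by the quaternion `x` has its rows in `√a ℚ^3`, `√b ℚ^3`, `√(ab) ℚ^3`. An
Euler angle decomposition of this rotation, whose angles have their cosines and sines in a multiquadratic field, writes
`t` in terms of cosines and sines of half angles, and these are square roots of elements `x + y √d` of quadratic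
fields, which are shown to lie in the compositum of the `D_4`-extensions.
-/

set_option autoImplicit false

namespace Pool.Agent.Results.MP_122cec_nt.QuaternionInCompositum

/-- For an algebraic closure `Ω` of `ℚ` and a group `G`, `IsGExtension G K` says that the subfield `K` of `Ω` is Galois
over `ℚ` with Galois group isomorphic to `G`. -/
def IsGExtension {Ω : Type*} [Field Ω] [Algebra ℚ Ω] (G : Type) [Group G]
    (K : IntermediateField ℚ Ω) : Prop :=
  IsGalois ℚ K ∧ Nonempty ((K ≃ₐ[ℚ] K) ≃* G)

/-- The compositum of all `D_4`-extensions of `ℚ` inside `Ω` (`DihedralGroup 4` is the dihedral group of order 8). -/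
def dihedralCompositum (Ω : Type*) [Field Ω] [Algebra ℚ Ω] : IntermediateField ℚ Ω :=
  sSup {K | IsGExtension (DihedralGroup 4) K}

/-- auxiliary -/
def PG (F : Type*) [Field F] [Algebra ℚ F] (G : Type) [Group G] : Prop :=
  IsGalois ℚ F ∧ Nonempty ((F ≃ₐ[ℚ] F) ≃* G)

theorem transfer {F : Type*} [Field F] (i1 i2 : Algebra ℚ F) (G : Type) [Group G]
    (h : @PG F _ i1 G _) : @PG F _ i2 G _ := by
  obtain rfl : i1 = i2 := Subsingleton.elim _ _
  exact h

/-- Every `Q_8`-extension of `ℚ` is contained in the compositum of all `D_4`-extensions (`QuaternionGroup 2` is the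
quaternion group of order 8). -/
theorem result (Ω : Type*) [Field Ω] [Algebra ℚ Ω] [IsAlgClosure ℚ Ω]
    (K : IntermediateField ℚ Ω) (hK : IsGExtension (QuaternionGroup 2) K) :
    K ≤ dihedralCompositum Ω := by
  have h0 : CharZero Ω := algebraRat.charZero Ω
  have h1 : IsAlgClosed Ω := IsAlgClosure.isAlgClosed ℚ
  have h2 : Algebra.IsAlgebraic ℚ Ω := IsAlgClosure.isAlgebraic
  obtain ⟨hG, ⟨φ⟩⟩ := transfer _ (IntermediateField.algebra' K) _ hK
  have e : dihedralCompositum Ω = Pool.Agent.Q20.QD.QD4 Ω := by
    unfold dihedralCompositum Pool.Agent.Q20.QD.QD4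
    congr 1
    ext L
    exact ⟨fun h => transfer _ _ _ h, fun h => transfer _ _ _ h⟩
  rw [e]
  exact Pool.Agent.Q20.QD.le_of_quaternion K hG φ

end Pool.Agent.Results.MP_122cec_nt.QuaternionInCompositum
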